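import Mathlib

set_option autoImplicit false

open Filter Topology
open scoped ENNReal

namespace Pool.Agent.Results.MP_868dd6_pr.Square

open Classical in
/-- `av G o n x`: probability that simple random walk on `G` started at `x` avoids `o`
at all times `1, ..., n`. -/
noncomputable def av {V : Type} (G : SimpleGraph V) (o : V) : ℕ → V → ℝ
  | 0, _ => 1
  | n + 1, x => (∑' y, if G.Adj x y ∧ y ≠ o then av G o n y else 0) / (G.neighborSet x).ncard

/-- Simple random walk started at `o` returns to `o` with probability one. -/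
def Rec {V : Type} (G : SimpleGraph V) (o : V) : Prop :=
  Tendsto (fun n => av G o n o) atTop (𝓝 0)

/-- The `k`-th power of a graph. -/
def pw {V : Type} (G : SimpleGraph V) (k : ℕ) : SimpleGraph V where
  Adj x y := x ≠ y ∧ G.edist x y ≤ k
  symm := ⟨fun x y h => ⟨h.1.symm, by rw [SimpleGraph.edist_comm]; exact h.2⟩⟩
  loopless := ⟨fun x h => h.1 rfl⟩

section General

variable {V : Type} {G : SimpleGraph V}

noncomputable def nb (hf : ∀ x, (G.neighborSet x).Finite) (x : V) : Finset V := (hf x).toFinset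

lemma mem_nb (hf : ∀ x, (G.neighborSet x).Finite) {x y : V} : y ∈ nb hf x ↔ G.Adj x y := by
  simp [nb]

open Classical in
noncomputable def bv (G : SimpleGraph V) (o : V) (n : ℕ) (y : V) : ℝ :=
  if y = o then 0 else av G o n y

lemma av_succ (hf : ∀ x, (G.neighborSet x).Finite) (o : V) (n : ℕ) (x : V) :
    av G o (n + 1) x = (∑ y ∈ nb hf x, bv G o n y) / (nb hf x).card := by
  rw [av, tsum_eq_sum (s := nb hf x) (fun y hy => if_neg fun h => hy ((mem_nb hf).2 h.1)),
    Set.ncard_eq_toFinset_card _ (hf x)]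
  congr 1
  refine Finset.sum_congr rfl fun y hy => ?_
  by_cases h : y = o <;> simp [bv, h, (mem_nb hf).1 hy]

lemma av_bd (hf : ∀ x, (G.neighborSet x).Finite) (o : V) (n : ℕ) :
    ∀ x, 0 ≤ av G o n x ∧ av G o n x ≤ 1 := by
  induction n with
  | zero => intro x; simp [av]
  | succ n ih =>
    intro x
    have hb : ∀ y, 0 ≤ bv G o n y ∧ bv G o n y ≤ 1 := fun y => by
      unfold bv; split_ifs
      · simp
      · exact ih y
    rw [av_succ hf]
    refine ⟨div_nonneg (Finset.sum_nonneg fun y _ => (hb y).1) (Nat.cast_nonneg _),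
      div_le_one_of_le₀ ?_ (Nat.cast_nonneg _)⟩
    simpa using Finset.sum_le_card_nsmul (nb hf x) _ 1 fun y _ => (hb y).2

lemma bv_bd (hf : ∀ x, (G.neighborSet x).Finite) (o : V) (n : ℕ) (y : V) :
    0 ≤ bv G o n y ∧ bv G o n y ≤ 1 := by
  unfold bv; split_ifs
  · simp
  · exact av_bd hf o n y

lemma av_anti (hf : ∀ x, (G.neighborSet x).Finite) (o : V) (n : ℕ) :
    ∀ x, av G o (n + 1) x ≤ av G o n x := by
  induction n with
  | zero => intro x; exact (av_bd hf o 1 x).2
  | succ n ih =>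
    intro x
    rw [av_succ hf, av_succ hf]
    refine div_le_div_of_nonneg_right (Finset.sum_le_sum fun y _ => ?_) (Nat.cast_nonneg _)
    unfold bv; split_ifs
    · rfl
    · exact ih y

lemma max_walk (hf : ∀ x, (G.neighborSet x).Finite) {v : V → ℝ} {z : V} {M : ℝ}
    (hM : ∀ y, v y ≤ M) (hs : ∀ x, x ≠ z → (nb hf x).card * v x ≤ ∑ y ∈ nb hf x, v y) :
    ∀ {x : V} (_ : G.Walk x z), v x = M → v z = M := by
  intro x p
  induction p with
  | nil => exact id
  | @cons x y w h p ih =>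
    intro hx
    by_cases e : x = w
    · rw [← e]; exact hx
    refine ih hs ?_
    by_contra hy
    have h1 := Finset.sum_lt_sum (s := nb hf x) (f := v) (g := fun _ => M) (fun i _ => hM i)
      ⟨y, (mem_nb hf).2 h, lt_of_le_of_ne (hM y) hy⟩
    have h2 := hs x e
    rw [hx] at h2
    simp only [Finset.sum_const, nsmul_eq_mul] at h1
    linarith

/-- Lyapunov criterion for recurrence -/
lemma rec_of_lyap (hf : ∀ x, (G.neighborSet x).Finite) (hc : G.Connected)
    (hne : ∀ x, ∃ y, G.Adj x y) {h : V → ℝ} {z : V} (h0 : ∀ x, 0 ≤ h x)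
    (hfin : ∀ R : ℝ, {x | h x ≤ R}.Finite)
    (hs : ∀ x, x ≠ z → ∑ y ∈ nb hf x, h y ≤ (nb hf x).card * h x) (o : V) : Rec G o := by
  classical
  have hbdd : ∀ x, BddBelow (Set.range fun n => av G o n x) := fun x =>
    ⟨0, by rintro _ ⟨n, rfl⟩; exact (av_bd hf o n x).1⟩
  have ht : ∀ x, Tendsto (fun n => av G o n x) atTop (𝓝 (⨅ n, av G o n x)) := fun x =>
    tendsto_atTop_ciInf (antitone_nat_of_succ_le fun n => av_anti hf o n x) (hbdd x)
  set u : V → ℝ := fun x => if x = o then 0 else ⨅ n, av G o n x with hu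
  have tb : ∀ x, Tendsto (fun n => bv G o n x) atTop (𝓝 (u x)) := fun x => by
    simp only [hu, bv]; split_ifs
    · exact tendsto_const_nhds
    · exact ht x
  have u0 : ∀ x, 0 ≤ u x := fun x => ge_of_tendsto' (tb x) fun n => (bv_bd hf o n x).1
  have u1 : ∀ x, u x ≤ 1 := fun x => le_of_tendsto' (tb x) fun n => (bv_bd hf o n x).2
  have cp : ∀ x, (0:ℝ) < (nb hf x).card := fun x => by
    obtain ⟨y, hy⟩ := hne x
    exact_mod_cast Finset.card_pos.2 ⟨y, (mem_nb hf).2 hy⟩
  have he : ∀ x, ⨅ n, av G o n x = (∑ y ∈ nb hf x, u y) / (nb hf x).card := fun x => by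
    refine tendsto_nhds_unique ((tendsto_add_atTop_iff_nat 1).2 (ht x)) ?_
    simp_rw [av_succ hf]
    exact (tendsto_finsetSum _ fun y _ => tb y).div_const _
  have us : ∀ x, (nb hf x).card * u x ≤ ∑ y ∈ nb hf x, u y := fun x => by
    by_cases e : x = o
    · simp only [hu, if_pos e, mul_zero]
      exact Finset.sum_nonneg fun y _ => u0 y
    · have : u x = (∑ y ∈ nb hf x, u y) / (nb hf x).card := by
        rw [← he x]; simp only [hu, if_neg e]
      rw [this, mul_div_cancel₀ _ (cp x).ne']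
  have hz : ∀ x, u x ≤ u z := by
    intro x
    refine le_of_forall_pos_le_add fun δ hδ => ?_
    have hp : 0 < h z + 1 := by linarith [h0 z]
    set ε := δ / (h x + 1) with hε
    have hx1 : 0 < h x + 1 := by linarith [h0 x]
    have ε0 : 0 < ε := by positivity
    obtain ⟨w, _, hw⟩ := Set.exists_max_image _ (fun y => u y - ε * h y)
      (hfin (h z + 1 / ε)) ⟨z, by simp only [Set.mem_ofPred_eq]; linarith [one_div_pos.2 ε0]⟩
    have hw2 : ∀ y, u y - ε * h y ≤ u w - ε * h w := fun y => by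
      by_cases hy : h y ≤ h z + 1 / ε
      · exact hw y hy
      · have a1 := hw z (by simp only [Set.mem_ofPred_eq]; linarith [one_div_pos.2 ε0])
        have a2 : ε * (h z + 1 / ε) ≤ ε * h y := mul_le_mul_of_nonneg_left (not_le.1 hy).le ε0.le
        rw [mul_add, mul_one_div_cancel ε0.ne'] at a2
        linarith [u1 y, u0 z]
    obtain ⟨p⟩ := hc w z
    have a3 := max_walk hf (v := fun y => u y - ε * h y) hw2 (fun y hy => by
      rw [Finset.sum_sub_distrib, ← Finset.mul_sum]
      nlinarith [us y, mul_le_mul_of_nonneg_left (hs y hy) ε0.le]) p rfl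
    have a4 := hw2 x
    have a5 : ε * h x ≤ δ := by
      rw [hε, div_mul_eq_mul_div, div_le_iff₀ hx1]; nlinarith
    have a6 := mul_nonneg ε0.le (h0 z)
    linarith
  obtain ⟨p⟩ := hc z o
  have a1 := max_walk hf hz (fun x _ => us x) p rfl
  have a2 : u o = 0 := by simp [hu]
  have a3 : ∀ x, u x = 0 := fun x => le_antisymm (by linarith [hz x]) (u0 x)
  have := ht o
  rw [he o] at this
  simpa [a3, Rec] using this

lemma supp_fin (hf : ∀ x, (G.neighborSet x).Finite) (hne : ∀ x, ∃ y, G.Adj x y) (o : V) (n : ℕ) :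
    {x | bv G o n x ≠ 1}.Finite := by
  induction n with
  | zero =>
    refine (Set.finite_singleton o).subset fun x hx => ?_
    by_contra e
    exact hx (by rw [bv, if_neg (show ¬ x = o from e)]; rfl)
  | succ n ih =>
    refine ((Set.finite_singleton o).union (ih.biUnion fun y _ => hf y)).subset fun x hx => ?_
    by_contra e
    simp only [Set.mem_union, Set.mem_singleton_iff, Set.mem_iUnion, not_or, not_exists,
      Set.mem_ofPred_eq, SimpleGraph.mem_neighborSet] at e
    apply hx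
    obtain ⟨y, hy⟩ := hne x
    have cp : (0:ℝ) < (nb hf x).card := by
      exact_mod_cast Finset.card_pos.2 ⟨y, (mem_nb hf).2 hy⟩
    rw [bv, if_neg e.1, av_succ hf, div_eq_one_iff_eq cp.ne', Finset.card_eq_sum_ones]
    push_cast
    refine Finset.sum_congr rfl fun y hy => ?_
    by_contra h
    exact e.2 y h ((mem_nb hf).1 hy).symm

open Classical in
/-- the Dirichlet energy of the hitting probabilities is bounded by the escape probability -/
lemma energy (hf : ∀ x, (G.neighborSet x).Finite) (hne : ∀ x, ∃ y, G.Adj x y) (o : V) (n : ℕ)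
    (S : Finset V) :
    ∑ x ∈ S, ∑ y ∈ S, (if G.Adj x y then (bv G o (n + 1) x - bv G o (n + 1) y) ^ 2 else 0)
      ≤ 2 * ((nb hf o).card * av G o (n + 2) o) := by
  set g : V → ℝ := fun x => 1 - bv G o (n + 1) x with hg
  set T := S ∪ (supp_fin hf hne o (n + 1)).toFinset with hT
  have g0 : ∀ x, 0 ≤ g x := fun x => sub_nonneg.2 (bv_bd hf o _ x).2
  have gT : ∀ x, x ∉ T → g x = 0 := fun x hx => by
    by_contra h
    refine hx (Finset.mem_union_right _ ?_)
    simp only [Set.Finite.mem_toFinset, Set.mem_ofPred_eq]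
    intro e; exact h (by simp [hg, e])
  have cp : ∀ x, (0:ℝ) < (nb hf x).card := fun x => by
    obtain ⟨y, hy⟩ := hne x
    exact_mod_cast Finset.card_pos.2 ⟨y, (mem_nb hf).2 hy⟩
  have s1 : ∑ x ∈ S, ∑ y ∈ S, (if G.Adj x y then (bv G o (n + 1) x - bv G o (n + 1) y) ^ 2 else 0)
      ≤ ∑ x ∈ T, ∑ y ∈ T, (if G.Adj x y then (g x - g y) ^ 2 else 0) := by
    refine le_trans (Finset.sum_le_sum fun x _ => ?_) (Finset.sum_le_sum_of_subset_of_nonneg
      Finset.subset_union_left fun x _ _ => Finset.sum_nonneg fun y _ => by positivity)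
    refine le_trans (le_of_eq (Finset.sum_congr rfl fun y _ => ?_))
      (Finset.sum_le_sum_of_subset_of_nonneg Finset.subset_union_left fun y _ _ => by positivity)
    simp only [hg]; congr 1; ring
  have s2 : ∑ x ∈ T, ∑ y ∈ T, (if G.Adj x y then g y * (g y - g x) else 0)
      = ∑ x ∈ T, ∑ y ∈ T, (if G.Adj x y then g x * (g x - g y) else 0) := by
    rw [Finset.sum_comm]
    exact Finset.sum_congr rfl fun x _ => Finset.sum_congr rfl fun y _ => by
      simp only [G.adj_comm y x]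
  have s3 : ∑ x ∈ T, ∑ y ∈ T, (if G.Adj x y then (g x - g y) ^ 2 else 0)
      = 2 * ∑ x ∈ T, ∑ y ∈ T, (if G.Adj x y then g x * (g x - g y) else 0) := by
    rw [two_mul]
    nth_rewrite 1 [← s2]
    rw [← Finset.sum_add_distrib]
    refine Finset.sum_congr rfl fun x _ => ?_
    rw [← Finset.sum_add_distrib]
    refine Finset.sum_congr rfl fun y _ => ?_
    split_ifs <;> ring
  have s4 : ∀ x, ∑ y ∈ T, (if G.Adj x y then g x * (g x - g y) else 0)
      ≤ if x = o then (nb hf o).card * av G o (n + 2) o else 0 := by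
    intro x
    rw [← Finset.sum_filter]
    refine le_trans (Finset.sum_le_sum_of_subset_of_nonneg (t := nb hf x)
      (fun y hy => (mem_nb hf).2 (Finset.mem_filter.1 hy).2) fun y hy hy2 => ?_) ?_
    · have : y ∉ T := fun h => hy2 (Finset.mem_filter.2 ⟨h, (mem_nb hf).1 hy⟩)
      rw [gT y this, sub_zero]; exact mul_self_nonneg _
    have e : ∑ y ∈ nb hf x, (g x - g y)
        = (nb hf x).card * (av G o (n + 2) x - bv G o (n + 1) x) := by
      rw [av_succ hf, mul_sub, mul_div_cancel₀ _ (cp x).ne']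
      simp only [hg, sub_sub_sub_cancel_left, Finset.sum_sub_distrib, Finset.sum_const,
        nsmul_eq_mul]
    rw [← Finset.mul_sum, e]
    split_ifs with h
    · subst h
      simp [hg, bv]
    · refine mul_nonpos_of_nonneg_of_nonpos (g0 x) (mul_nonpos_of_nonneg_of_nonpos (cp x).le ?_)
      rw [bv, if_neg h]
      exact sub_nonpos.2 (av_anti hf o _ x)
  refine s1.trans (s3.trans_le (mul_le_mul_of_nonneg_left
    ((Finset.sum_le_sum fun x _ => s4 x).trans ?_) zero_le_two))
  rw [Finset.sum_ite_eq']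
  split_ifs
  · rfl
  · exact mul_nonneg (cp o).le (av_bd hf o _ o).1

lemma pw_fin (hf : ∀ x, (G.neighborSet x).Finite) (x : V) : ((pw G 2).neighborSet x).Finite := by
  refine ((hf x).union ((hf x).biUnion fun y _ => hf y)).subset fun y hy => ?_
  obtain ⟨h1, h2⟩ := hy
  obtain ⟨p, hp⟩ := SimpleGraph.exists_walk_of_edist_ne_top (ne_top_of_le_ne_top (by simp) h2)
  rw [← hp] at h2
  have h3 : p.length ≤ 2 := by exact_mod_cast h2
  match p, h3 with
  | .nil, _ => exact absurd rfl h1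
  | .cons h .nil, _ => exact Or.inl h
  | .cons h (.cons h' .nil), _ => exact Or.inr (Set.mem_biUnion h h')
  | .cons _ (.cons _ (.cons _ _)), h3 => simp at h3

lemma pw_adj2 {x y z : V} (h1 : G.Adj x y) (h2 : G.Adj y z) (h : x ≠ z) : (pw G 2).Adj x z :=
  ⟨h, by simpa using SimpleGraph.edist_le (.cons h1 (.cons h2 .nil))⟩

lemma pw_adj1 {x y : V} (h1 : G.Adj x y) : (pw G 2).Adj x y :=
  ⟨h1.ne, (SimpleGraph.edist_le_one_iff_adj_or_eq.2 (Or.inl h1)).trans (by simp)⟩

end General

abbrev T : Type := Σ k : ℕ, Fin (k + 2)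
abbrev W : Type := T × ℕ

def lv (x : W) : ℕ := x.1.1
def ix (x : W) : ℕ := x.1.2.1
def mk (k j n : ℕ) (h : j < k + 2) : W := (⟨k, ⟨j, h⟩⟩, n)

@[simp] lemma lv_mk (k j n : ℕ) (h : j < k + 2) : lv (mk k j n h) = k := rfl
@[simp] lemma ix_mk (k j n : ℕ) (h : j < k + 2) : ix (mk k j n h) = j := rfl
@[simp] lemma n_mk (k j n : ℕ) (h : j < k + 2) : (mk k j n h).2 = n := rfl

lemma ix_lt (x : W) : ix x < lv x + 2 := x.1.2.2

lemma W_ext {x y : W} (h1 : lv x = lv y) (h2 : ix x = ix y) (h3 : x.2 = y.2) : x = y := by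
  obtain ⟨⟨k, j⟩, n⟩ := x
  obtain ⟨⟨k', j'⟩, n'⟩ := y
  simp only [lv, ix] at h1 h2 h3
  subst h1 h3
  rw [Fin.ext h2]

def r (x y : W) : Prop := (ix x = 0 ∧ ix y ≠ 0 ∧ lv y = lv x ∧ y.2 = x.2) ∨
  (ix x ≠ 0 ∧ ix y = 0 ∧ lv y = lv x + 1 ∧ y.2 = x.2 / 2)

def Gr : SimpleGraph W where
  Adj x y := r x y ∨ r y x
  symm := ⟨fun _ _ h => h.symm⟩
  loopless := ⟨fun x h => by simp only [r, or_self] at h; omega⟩

lemma adj_iff {x y : W} : Gr.Adj x y ↔ r x y ∨ r y x := Iff.rfl

def code (x y : W) : ℕ := if lv y = lv x then ix y else if lv y = lv x + 1 then lv x + 2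
  else lv x + 3 + 2 * ix y + y.2 % 2

lemma code_inj (x : W) : Set.InjOn (code x) (Gr.neighborSet x) := by
  intro y hy z hz h
  have h1 := ix_lt y
  have h2 := ix_lt z
  simp only [SimpleGraph.mem_neighborSet, adj_iff, r] at hy hz
  unfold code at h
  refine W_ext ?_ ?_ ?_ <;> split_ifs at h <;> omega

lemma code_lt (x : W) : ∀ y ∈ Gr.neighborSet x, code x y ∈ Finset.range (3 * lv x + 5) := by
  intro y hy
  have h1 := ix_lt y
  simp only [SimpleGraph.mem_neighborSet, adj_iff, r] at hy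
  rw [Finset.mem_range]
  unfold code
  split_ifs <;> omega

lemma fin (x : W) : (Gr.neighborSet x).Finite :=
  Set.Finite.of_injOn (t := (Finset.range (3 * lv x + 5) : Set ℕ)) (code_lt x) (code_inj x)
    (Finset.finite_toSet _)

lemma deg_le (x : W) : (Gr.neighborSet x).ncard ≤ 3 * lv x + 5 := by
  have := Set.ncard_le_ncard_of_injOn (t := (Finset.range (3 * lv x + 5) : Set ℕ)) (code x)
    (code_lt x) (code_inj x) (Finset.finite_toSet _)
  simpa using this

def mn (k n : ℕ) : W := mk k 0 n (by omega)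

lemma up1 (k n : ℕ) : Gr.Adj (mn k n) (mk k 1 n (by omega)) := by simp [adj_iff, r, mn]
lemma up2 {x : W} (h : ix x ≠ 0) : Gr.Adj x (mn (lv x + 1) (x.2 / 2)) := by
  simp [adj_iff, r, mn, h]
lemma dn {x : W} (h : ix x ≠ 0) : Gr.Adj (mn (lv x) x.2) x := by simp [adj_iff, r, mn, h]

lemma hne (x : W) : ∃ y, Gr.Adj x y := by
  by_cases h : ix x = 0
  · exact ⟨mk (lv x) 1 x.2 (by omega), by simp [adj_iff, r, h]⟩
  · exact ⟨_, up2 h⟩

lemma step (k n : ℕ) : Gr.Reachable (mn k n) (mn (k + 1) (n / 2)) :=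
  (up1 k n).reachable.trans (up2 (x := mk k 1 n (by omega)) (by simp)).reachable

lemma spine (k : ℕ) : Gr.Reachable (mn k 0) (mn 0 0) := by
  induction k with
  | zero => rfl
  | succ k ih => exact (step k 0).symm.trans ih

lemma to_spine (n : ℕ) : ∀ k, Gr.Reachable (mn k n) (mn 0 0) := by
  induction n using Nat.strong_induction_on with
  | _ n ih =>
    intro k
    rcases Nat.eq_zero_or_pos n with rfl | h
    · exact spine k
    · exact (step k n).trans (ih _ (by omega) _)

lemma conn : Gr.Connected := by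
  have h : ∀ x, Gr.Reachable x (mn 0 0) := fun x => by
    by_cases h : ix x = 0
    · have : x = mn (lv x) x.2 := W_ext rfl h rfl
      rw [this]; exact to_spine _ _
    · exact (dn h).reachable.symm.trans (to_spine _ _)
  have : Nonempty W := ⟨mn 0 0⟩
  exact ⟨fun x y => (h x).trans (h y).symm⟩

noncomputable def H (m : ℕ) : ℝ := 2 * ∑ i ∈ Finset.range m, 1 / ((i : ℝ) + 1)

lemma H_succ (m : ℕ) : H (m + 1) = H m + 2 * (1 / ((m : ℝ) + 1)) := by
  unfold H; rw [Finset.sum_range_succ]; ring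

lemma size_half {n : ℕ} (h : n ≠ 0) : Nat.size n = Nat.size (n / 2) + 1 := by
  have h1 := Nat.lt_size_self (n / 2)
  have h2 := Nat.lt_size_self n
  have h3 : 0 < Nat.size n := Nat.size_pos.2 (by omega)
  refine le_antisymm (Nat.size_le.2 (by rw [pow_succ]; omega)) ?_
  obtain ⟨s, hs⟩ : ∃ s, Nat.size n = s + 1 := ⟨Nat.size n - 1, by omega⟩
  rw [hs, pow_succ] at h2
  rw [hs]
  exact Nat.succ_le_succ (Nat.size_le.2 (by omega))

noncomputable def hh (x : W) : ℝ :=
  H (lv x + Nat.size x.2) + if ix x ≠ 0 ∧ x.2 = 0 then 1 / ((lv x : ℝ) + 1) else 0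

lemma H_nn (m : ℕ) : 0 ≤ H m := by unfold H; positivity

lemma hh_ge (x : W) : H (lv x + Nat.size x.2) ≤ hh x := by
  unfold hh; split_ifs
  · exact le_add_of_nonneg_right (by positivity)
  · simp

lemma hh_fin (R : ℝ) : {x | hh x ≤ R}.Finite := by
  have ht : Tendsto H atTop atTop :=
    Real.tendsto_sum_range_one_div_nat_succ_atTop.const_mul_atTop two_pos
  obtain ⟨M, hM⟩ := eventually_atTop.1 (ht.eventually_gt_atTop R)
  refine Set.Finite.of_injOn (f := fun x => (lv x, ix x, x.2))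
    (t := Set.Iio M ×ˢ Set.Iio (M + 2) ×ˢ Set.Iio (2 ^ M)) (fun x hx => ?_)
    (fun x _ y _ h => ?_) ((Set.finite_Iio _).prod ((Set.finite_Iio _).prod (Set.finite_Iio _)))
  · have h1 : lv x + Nat.size x.2 < M := by
      by_contra h
      exact absurd ((hh_ge x).trans hx) (not_le.2 (hM _ (not_lt.1 h)))
    have h2 := ix_lt x
    exact ⟨show lv x < M by omega, show ix x < M + 2 by omega,
      Nat.size_le.1 (show Nat.size x.2 ≤ M by omega)⟩
  · simp only [Prod.mk.injEq] at h
    exact W_ext h.1 h.2.1 h.2.2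

lemma off {x y : W} (hx : x.2 ≠ 0) (h : Gr.Adj x y) : hh y = hh x := by
  simp only [adj_iff, r] at h
  unfold hh
  rw [if_neg (by omega), if_neg (by omega)]
  congr 2
  rcases h with (h | h) | (h | h)
  · rw [h.2.2.1, h.2.2.2]
  · rw [h.2.2.1, h.2.2.2, size_half hx]; omega
  · rw [h.2.2.1, h.2.2.2]
  · rw [h.2.2.1, h.2.2.2, size_half (n := y.2) (by omega)]; omega

lemma harm (x : W) (hx : x ≠ mn 0 0) : ∑ y ∈ nb fin x, hh y ≤ (nb fin x).card * hh x := by
  classical
  rw [← nsmul_eq_mul, ← Finset.sum_const, ← sub_nonpos, ← Finset.sum_sub_distrib]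
  by_cases h0 : x.2 ≠ 0
  · exact le_of_eq (Finset.sum_eq_zero fun y hy => sub_eq_zero.2 (off h0 ((mem_nb fin).1 hy)))
  push Not at h0
  by_cases hi : ix x = 0
  · obtain ⟨k, hk⟩ : ∃ k, lv x = k + 1 := by
      refine ⟨lv x - 1, ?_⟩
      have : lv x ≠ 0 := fun h => hx (W_ext h hi h0)
      omega
    have e : ∀ y ∈ nb fin x, hh y - hh x = (if lv y = lv x then 1 / ((k : ℝ) + 2) else 0)
        - (if lv y ≠ lv x ∧ y.2 = 0 then 1 / ((k : ℝ) + 1) else 0) := by
      intro y hy
      have h := (mem_nb fin).1 hy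
      simp only [adj_iff, r] at h
      unfold hh
      by_cases h1 : lv y = lv x
      · have h2 : y.2 = 0 := by omega
        rw [if_pos (by omega), if_neg (by omega), if_pos h1, if_neg (by omega), h1, h2, h0, hk]
        push_cast; ring
      · have h3 : lv y = k := by omega
        by_cases h2 : y.2 = 0
        · rw [if_pos (by omega), if_neg (by omega), if_neg h1, if_pos ⟨h1, h2⟩, h2, h0, hk, h3]
          simp only [Nat.size_zero, add_zero, H_succ]; ring
        · have h4 : y.2 = 1 := by omega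
          rw [if_neg (by omega), if_neg (by omega), if_neg h1, if_neg (by omega), h4, h0, hk, h3]
          simp
    rw [Finset.sum_congr rfl e, Finset.sum_sub_distrib, ← Finset.sum_filter, ← Finset.sum_filter,
      Finset.sum_const, Finset.sum_const, nsmul_eq_mul, nsmul_eq_mul]
    have c1 : ((nb fin x).filter fun y => lv y = lv x).card ≤ (Finset.Icc 1 (k + 2)).card := by
      refine Finset.card_le_card_of_injOn ix (fun y hy => ?_) (fun y hy z hz h => ?_)
      · simp only [Finset.coe_filter, mem_nb, adj_iff, r, Set.mem_ofPred_eq] at hy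
        have := ix_lt y
        simp only [Finset.coe_Icc, Set.mem_Icc]; omega
      · simp only [Finset.coe_filter, mem_nb, adj_iff, r, Set.mem_ofPred_eq] at hy hz
        exact W_ext (by omega) h (by omega)
    have c2 : (Finset.univ : Finset (Fin (k + 1))).card
        ≤ ((nb fin x).filter fun y => lv y ≠ lv x ∧ y.2 = 0).card := by
      refine Finset.card_le_card_of_injOn (fun j => mk k (j.1 + 1) 0 (by omega))
        (fun j _ => ?_) (fun i _ j _ h => ?_)
      · simp [mem_nb, adj_iff, r, hi, hk, h0]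
      · have := congrArg ix h
        exact Fin.ext (by simpa using this)
    simp only [Nat.card_Icc, Finset.card_univ, Fintype.card_fin, Nat.add_sub_cancel] at c1 c2
    have d1 : (((nb fin x).filter fun y => lv y = lv x).card : ℝ) ≤ k + 2 := by exact_mod_cast c1
    have d2 : (k : ℝ) + 1 ≤ ((nb fin x).filter fun y => lv y ≠ lv x ∧ y.2 = 0).card := by
      exact_mod_cast c2
    rw [mul_one_div, mul_one_div, sub_nonpos]
    exact ((div_le_one (by positivity)).2 d1).trans ((one_le_div (by positivity)).2 d2)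
  · have e : nb fin x = {mn (lv x) 0, mn (lv x + 1) 0} := by
      ext y
      simp only [mem_nb, Finset.mem_insert, Finset.mem_singleton]
      constructor
      · intro h
        simp only [adj_iff, r] at h
        by_cases h1 : lv y = lv x
        · exact Or.inl (W_ext h1 (by simp only [mn, ix_mk]; omega) (by simp only [mn, n_mk]; omega))
        · exact Or.inr (W_ext (by simp only [mn, lv_mk]; omega) (by simp only [mn, ix_mk]; omega)
            (by simp only [mn, n_mk]; omega))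
      · rintro (rfl | rfl)
        · have := (dn hi).symm
          rwa [h0] at this
        · have := up2 hi
          rwa [h0] at this
    rw [e, Finset.sum_pair (fun h => by have := congrArg lv h; simp [mn] at this)]
    simp only [hh, mn, lv_mk, ix_mk, n_mk, h0, Nat.size_zero, add_zero, H_succ]
    simp [hi, two_mul]

lemma rec_G (o : W) : Rec Gr o :=
  rec_of_lyap fin conn hne (fun x => (H_nn _).trans (hh_ge x)) hh_fin harm o

def md (L : ℕ) (i : Fin (L + 1)) : W := mk L (i.1 + 1) 0 (by omega)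

lemma md_adj (L : ℕ) (i : Fin (L + 1)) (j : Fin (L + 2)) :
    (pw Gr 2).Adj (md L i) (md (L + 1) j) :=
  pw_adj2 (y := mn (L + 1) 0) (by simp [adj_iff, r, md, mn]) (by simp [adj_iff, r, md, mn])
    (fun h => by have := congrArg lv h; simp [md] at this)

lemma layer (L : ℕ) (a : Fin (L + 1) → ℝ) (b : Fin (L + 2) → ℝ) :
    (∑ j, b j) / (L + 2) - (∑ i, a i) / (L + 1)
      ≤ (∑ i, ∑ j, (a i - b j) ^ 2) / 2 + (1 / ((L : ℝ) + 1) - 1 / (L + 2)) / 2 := by
  set c : ℝ := 1 / ((L + 1) * (L + 2)) with hc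
  have h : ∑ i, ∑ j, c * (b j - a i) ≤ ∑ i, ∑ j, ((a i - b j) ^ 2 / 2 + c ^ 2 / 2) :=
    Finset.sum_le_sum fun i _ => Finset.sum_le_sum fun j _ => by
      nlinarith [sq_nonneg (b j - a i - c)]
  simp only [Finset.sum_add_distrib, ← Finset.sum_div, ← Finset.mul_sum, Finset.sum_sub_distrib,
    Finset.sum_const, Finset.card_univ, Fintype.card_fin, nsmul_eq_mul] at h
  push_cast at h
  have e1 : (∑ j, b j) / (L + 2) - (∑ i, a i) / (L + 1)
      = c * ((L + 1) * ∑ j, b j - (L + 2) * ∑ i, a i) := by rw [hc]; field_simp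
  have e2 : (1 / ((L : ℝ) + 1) - 1 / (L + 2)) / 2 = (L + 2) * ((L + 1) * c ^ 2) / 2 := by
    rw [hc]; field_simp; ring
  rw [e1, e2]
  exact h

lemma not_rec : ¬ Rec (pw Gr 2) (md 0 0) := by
  classical
  intro hr
  have hf := pw_fin fin
  have hn : ∀ x, ∃ y, (pw Gr 2).Adj x y := fun x => (hne x).imp fun y h => pw_adj1 h
  have key : ∀ n, 1 ≤ 2 * ((nb hf (md 0 0)).card * av (pw Gr 2) (md 0 0) (n + 2) (md 0 0)) := by
    intro n
    set g := bv (pw Gr 2) (md 0 0) (n + 1) with hg
    obtain ⟨N, hN⟩ := ((supp_fin hf hn (md 0 0) (n + 1)).image lv).bddAbove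
    have gN : ∀ j, g (md (N + 1) j) = 1 := fun j => by
      by_contra h
      have := hN ⟨md (N + 1) j, h, rfl⟩
      simp [md] at this
    let κ : (Σ L : Fin (N + 1), Fin (L.1 + 1) × Fin (L.1 + 2)) → W × W :=
      fun s => (md s.1 s.2.1, md (s.1 + 1) s.2.2)
    have ki : Function.Injective κ := by
      rintro ⟨L, i, j⟩ ⟨L', i', j'⟩ h
      simp only [κ, Prod.mk.injEq] at h
      have h1 : L = L' := Fin.ext (congrArg lv h.1)
      subst h1
      have h2 : i = i' := Fin.ext (by simpa [md] using congrArg ix h.1)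
      have h3 : j = j' := Fin.ext (by simpa [md] using congrArg ix h.2)
      rw [h2, h3]
    refine le_trans ?_ (energy hf hn (md 0 0) n
      ((Finset.univ.image κ).image Prod.fst ∪ (Finset.univ.image κ).image Prod.snd))
    have tel : ∀ M : ℕ, (∑ j, g (md M j)) / (M + 1) ≤ (∑ L ∈ Finset.range M, ∑ i, ∑ j,
        (g (md L i) - g (md (L + 1) j)) ^ 2) / 2 + (1 - 1 / ((M : ℝ) + 1)) / 2 := by
      intro M
      induction M with
      | zero => simp [hg, bv]
      | succ M ih =>
        have := layer M (fun i => g (md M i)) (fun j => g (md (M + 1) j))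
        rw [Finset.sum_range_succ]
        push_cast
        rw [add_assoc (M : ℝ), one_add_one_eq_two]
        linarith
    have t1 := tel (N + 1)
    simp only [gN, Finset.sum_const, Finset.card_univ, Fintype.card_fin, nsmul_eq_mul,
      mul_one] at t1
    push_cast at t1
    rw [div_self (by positivity)] at t1
    have t2 : (0:ℝ) ≤ 1 / ((N : ℝ) + 1 + 1) := by positivity
    refine le_trans (b := ∑ L ∈ Finset.range (N + 1), ∑ i, ∑ j,
        (g (md L i) - g (md (L + 1) j)) ^ 2) (by linarith) ?_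
    have e : ∑ L ∈ Finset.range (N + 1), ∑ i, ∑ j, (g (md L i) - g (md (L + 1) j)) ^ 2
        = ∑ p ∈ Finset.univ.image κ, (g p.1 - g p.2) ^ 2 := by
      rw [Finset.sum_image (fun x _ y _ h => ki h), Finset.sum_range, Fintype.sum_sigma]
      simp only [Fintype.sum_prod_type, κ]
    rw [e, ← Finset.sum_product', ← Finset.sum_filter]
    refine Finset.sum_le_sum_of_subset_of_nonneg (fun p hp => ?_) (fun _ _ _ => sq_nonneg _)
    refine Finset.mem_filter.2 ⟨Finset.mem_product.2
      ⟨Finset.mem_union_left _ (Finset.mem_image_of_mem _ hp),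
        Finset.mem_union_right _ (Finset.mem_image_of_mem _ hp)⟩, ?_⟩
    obtain ⟨s, _, rfl⟩ := Finset.mem_image.1 hp
    exact md_adj _ _ _
  have := (hr.comp (tendsto_add_atTop_nat 2)).const_mul ((nb hf (md 0 0)).card : ℝ)
  have h2 := ge_of_tendsto' (this.const_mul 2) key
  norm_num at h2

def fl (m : ℕ) (x : W) : W := (x.1, x.2 ^^^ (m >>> lv x))

lemma fl_fl (m : ℕ) (x : W) : fl m (fl m x) = x := by
  simp [fl, lv]

lemma fl_r (m : ℕ) {x y : W} (h : r x y) : r (fl m x) (fl m y) := by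
  rcases h with h | h
  · exact Or.inl ⟨h.1, h.2.1, h.2.2.1, by simp only [fl, h.2.2.1, h.2.2.2]⟩
  · exact Or.inr ⟨h.1, h.2.1, h.2.2.1, by
      simp only [fl, h.2.2.1, h.2.2.2, Nat.shiftRight_succ, Nat.xor_div_two]⟩

def aut (m : ℕ) : Gr ≃g Gr where
  toEquiv := Function.Involutive.toPerm (fl m) (fl_fl m)
  map_rel_iff' := by
    intro x y
    refine ⟨fun h => ?_, fun h => h.imp (fl_r m) (fl_r m)⟩
    have := Or.imp (fl_r m) (fl_r m) h
    change r (fl m (fl m x)) (fl m (fl m y)) ∨ r (fl m (fl m y)) (fl m (fl m x)) at this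
    rw [fl_fl, fl_fl] at this
    exact this

lemma shift_sum (l : ℕ) : ∀ F : ℕ → ℝ≥0∞, ∑' m, F (m >>> l) = 2 ^ l * ∑' n, F n := by
  induction l with
  | zero => intro F; simp
  | succ l ih =>
    intro F
    simp_rw [Nat.shiftRight_succ]
    rw [ih (fun n => F (n / 2)), pow_succ, mul_assoc,
      ← tsum_even_add_odd ENNReal.summable ENNReal.summable, two_mul]
    congr 2
    · exact tsum_congr fun n => by congr 1; omega
    · exact tsum_congr fun n => by congr 1; omega

noncomputable def wt (x : W) : ℝ≥0∞ := if x.2 = 0 then 2⁻¹ ^ lv x else 0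

lemma wt_sum (F : W → ℝ≥0∞) : ∑' x, wt x * F x = ∑' s : T, 2⁻¹ ^ s.1 * F (s, 0) := by
  rw [ENNReal.tsum_prod']
  refine tsum_congr fun s => ?_
  rw [tsum_eq_single 0 fun n hn => by simp [wt, hn]]
  simp [wt, lv]

lemma mtp (f : W → W → ℝ≥0∞) (hf : ∀ (φ : Gr ≃g Gr) (x y : W), f (φ x) (φ y) = f x y) :
    ∑' x, wt x * ∑' y, f x y = ∑' x, wt x * ∑' y, f y x := by
  rw [wt_sum, wt_sum]
  simp_rw [ENNReal.tsum_prod' (f := fun y => f _ y), ENNReal.tsum_prod' (f := fun y => f y _),
    ← ENNReal.tsum_mul_left (f := fun t : T => ∑' n, _)]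
  rw [ENNReal.tsum_comm]
  refine tsum_congr fun t => tsum_congr fun s => ?_
  have h : 2 ^ t.1 * ∑' n, f (s, 0) (t, n) = 2 ^ s.1 * ∑' n, f (s, n) (t, 0) := by
    rw [← shift_sum, ← shift_sum]
    refine tsum_congr fun m => ?_
    rw [← hf (aut m)]
    congr 1
    · change fl m (s, 0) = _
      simp [fl, lv]
    · change fl m (t, m >>> t.1) = _
      simp [fl, lv]
  have c : ∀ k : ℕ, (2⁻¹ : ℝ≥0∞) ^ k * 2 ^ k = 1 := fun k => by
    rw [← mul_pow, ENNReal.inv_mul_cancel two_ne_zero ENNReal.ofNat_ne_top, one_pow]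
  calc 2⁻¹ ^ s.1 * ∑' n, f (s, 0) (t, n)
      = 2⁻¹ ^ s.1 * (2⁻¹ ^ t.1 * (2 ^ t.1 * ∑' n, f (s, 0) (t, n))) := by
        rw [← mul_assoc (2⁻¹ ^ t.1), c, one_mul]
    _ = 2⁻¹ ^ t.1 * ∑' n, f (s, n) (t, 0) := by
        rw [h, mul_left_comm, ← mul_assoc (2⁻¹ ^ s.1), c, one_mul]

lemma big_fin : ∑' x, wt x * ENNReal.ofReal ((3 / 2) ^ lv x) ≠ ⊤ := by
  rw [wt_sum, ENNReal.tsum_sigma']
  have hs : Summable fun k : ℕ => ((k : ℝ) + 2) * (3 / 4) ^ k := by
    simp_rw [add_mul]
    have h1 := summable_pow_mul_geometric_of_norm_lt_one (R := ℝ) 1 (r := 3 / 4) (by norm_num)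
    simp only [pow_one] at h1
    exact h1.add ((summable_geometric_of_lt_one (by norm_num) (by norm_num)).mul_left 2)
  refine ne_of_eq_of_ne (tsum_congr fun k => ?_) hs.tsum_ofReal_ne_top
  simp only [lv, tsum_fintype, Finset.sum_const, Finset.card_univ, Fintype.card_fin, nsmul_eq_mul]
  have e : (2⁻¹ : ℝ≥0∞) = ENNReal.ofReal (1 / 2) := by
    rw [one_div, ENNReal.ofReal_inv_of_pos two_pos]; simp
  rw [e, ← ENNReal.ofReal_pow (by norm_num), ← ENNReal.ofReal_mul (by positivity), ← mul_pow,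
    ← ENNReal.ofReal_natCast, ← ENNReal.ofReal_mul (by positivity)]
  congr 1
  push_cast
  norm_num

lemma wt0 : wt (md 0 0) = 1 := by simp [wt, md]

lemma Z_fin : ∑' x, wt x ≠ ⊤ := by
  refine ne_top_of_le_ne_top big_fin (ENNReal.tsum_le_tsum fun x => ?_)
  exact le_mul_of_one_le_right' (ENNReal.one_le_ofReal.2 (one_le_pow₀ (by norm_num)))

lemma Z_ge : 1 ≤ ∑' x, wt x := wt0 ▸ ENNReal.le_tsum (md 0 0)

theorem result : ∃ (V : Type) (_ : Countable V) (G : SimpleGraph V) (p : V → ℝ≥0∞),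
    G.Connected ∧ (∀ x, (G.neighborSet x).Finite) ∧ ∑' x, p x = 1 ∧
    (∀ f : V → V → ℝ≥0∞, (∀ (φ : G ≃g G) (x y : V), f (φ x) (φ y) = f x y) →
      ∑' x, p x * ∑' y, f x y = ∑' x, p x * ∑' y, f y x) ∧
    (∃ C c : ℝ, 0 < C ∧ 0 < c ∧ ∀ n : ℕ,
      ∑' x, (if n ≤ (G.neighborSet x).ncard then p x else 0)
        ≤ ENNReal.ofReal (C * Real.exp (-(c * n)))) ∧
    (∀ o, Rec G o) ∧ (∀ x, ((pw G 2).neighborSet x).Finite) ∧
    ∃ o, p o ≠ 0 ∧ ¬ Rec (pw G 2) o := by
  have z0 : ∑' x, wt x ≠ 0 := (zero_lt_one.trans_le Z_ge).ne'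
  refine ⟨W, inferInstance, Gr, fun x => (∑' x, wt x)⁻¹ * wt x, conn, fin, ?_, fun f hf => ?_,
    ⟨((∑' x, wt x * ENNReal.ofReal ((3 / 2) ^ lv x)).toReal + 1) * Real.exp (1 / 2), 1 / 10,
      by positivity, by norm_num, fun n => ?_⟩, rec_G, pw_fin fin, md 0 0, ?_, not_rec⟩
  · rw [ENNReal.tsum_mul_left, ENNReal.inv_mul_cancel z0 Z_fin]
  · simp_rw [mul_assoc]
    rw [ENNReal.tsum_mul_left, ENNReal.tsum_mul_left, mtp f hf]
  · rw [mul_assoc, ENNReal.ofReal_mul (by positivity), ENNReal.ofReal_add (by positivity)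
      zero_le_one, ENNReal.ofReal_toReal big_fin]
    refine le_trans ?_ (mul_le_mul_left le_self_add _)
    rw [← ENNReal.tsum_mul_right]
    refine ENNReal.tsum_le_tsum fun x => ?_
    split_ifs with h
    · refine (mul_le_of_le_one_left' (ENNReal.inv_le_one.2 Z_ge)).trans ?_
      rw [mul_assoc, ← ENNReal.ofReal_mul (by positivity)]
      refine le_mul_of_one_le_right' (ENNReal.one_le_ofReal.2 ?_)
      have h1 : (n : ℝ) ≤ 3 * lv x + 5 := by exact_mod_cast h.trans (deg_le x)
      have h2 : Real.exp (3 / 10) ≤ 3 / 2 := by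
        have := Real.exp_bound_div_one_sub_of_interval (x := 3 / 10) (by norm_num) (by norm_num)
        linarith
      have h3 : Real.exp (lv x * (3 / 10)) ≤ (3 / 2) ^ lv x := by
        rw [Real.exp_nat_mul]; exact pow_le_pow_left₀ (Real.exp_pos _).le h2 _
      refine le_trans ?_ (mul_le_mul_of_nonneg_right h3 (by positivity))
      rw [← Real.exp_add, ← Real.exp_add]
      exact Real.one_le_exp (by linarith)
    · exact zero_le
  · simp only [wt0, mul_one]
    exact ENNReal.inv_ne_zero.2 Z_fin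

end Pool.Agent.Results.MP_868dd6_pr.Square
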